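import Pool.Agent.FS.TodaBC.Form
import Pool.Agent.FS.TodaBC.Data
import Pool.Agent.FS.TodaBC.Exc

set_option autoImplicit false

open Polynomial

namespace Pool.Agent.Variants.MP_4223bd_al.NotSimplyLaced

/-- `M` is the Gram matrix of the simple roots of a simple root system of rank `n` that is not
simply-laced, normalised so that short roots have square length 2: the Cartan matrix
`2 (α_i,α_j) / (α_j,α_j)` times the diagonal matrix of the numbers `d_j = (α_j,α_j) / 2`. -/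
def IsMixedGram (n : ℕ) (M : Matrix (Fin n) (Fin n) ℤ) : Prop :=
  (2 ≤ n ∧ M = CartanMatrix.B n * Matrix.diagonal fun i => if i.val + 1 = n then 1 else 2) ∨
    (2 ≤ n ∧ M = CartanMatrix.C n * Matrix.diagonal fun i => if i.val + 1 = n then 2 else 1) ∨
    (∃ h : n = 4, M = (CartanMatrix.F₄ * Matrix.diagonal ![2, 2, 1, 1]).submatrix
      (Fin.cast h) (Fin.cast h)) ∨
    (∃ h : n = 2, M = (CartanMatrix.G₂ * Matrix.diagonal ![3, 1]).submatrix
      (Fin.cast h) (Fin.cast h))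

variable {n : ℕ}

/-- For `a` in the positive cone (given by its coefficients on the simple roots),
the number (a,a)/2. -/
def halfNorm (G : Matrix (Fin n) (Fin n) ℤ) (a : Fin n → ℕ) : ℕ :=
  ((∑ i, ∑ j, (a i : ℤ) * G i j * (a j : ℤ)) / 2).toNat

/-- (q)_a = ∏_i ∏_{j=1}^{a_i} (1 - q^{d_i j}) with d_i = (α_i,α_i)/2. -/
noncomputable def qPoch (G : Matrix (Fin n) (Fin n) ℤ) (a : Fin n → ℕ) : RatFunc ℚ :=
  ∏ i, ∏ j ∈ Finset.Icc 1 (a i), (1 - RatFunc.X ^ ((G i i / 2).toNat * j))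

/-- `J` is the family of rational functions of the problem: `J 0 = 1` and
`J a = ∑_{0 ≤ c ≤ a} q^{(c,c)/2} / (q)_{a-c} * J c`. -/
def IsJ (G : Matrix (Fin n) (Fin n) ℤ) (J : (Fin n → ℕ) → RatFunc ℚ) : Prop :=
  J 0 = 1 ∧
    ∀ a, J a = ∑ c ∈ Finset.Iic a, RatFunc.X ^ halfNorm G c / qPoch G (a - c) * J c

open Pool.Agent.Lib.MP_4223bd_al Pool.Agent.FS.TodaBC

lemma good_X : Good (RatFunc.X : RatFunc ℚ) := by
  refine ⟨RatFunc.X_ne_zero, fun k h => ?_⟩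
  have h1 : (algebraMap ℚ[X] (RatFunc ℚ)) (1 - X ^ (k + 1)) = 0 := by
    simpa using h
  have h2 : (1 - X ^ (k + 1) : ℚ[X]) = 0 := (RatFunc.algebraMap_injective ℚ) (by simpa using h1)
  have h3 := congrArg (fun p : ℚ[X] => p.coeff 0) h2
  simp at h3

lemma prod_Icc_eq (d x : ℕ) :
    ∏ j ∈ Finset.Icc 1 x, (1 - (RatFunc.X : RatFunc ℚ) ^ (d * j)) = pq (RatFunc.X ^ d) x := by
  rw [pq, ← Finset.Ico_add_one_right_eq_Icc, Finset.prod_Ico_eq_prod_range]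
  simp [add_comm, pow_mul]

lemma qPoch_eq {m α β : ℕ} {r : ℤ} {G : Matrix (Fin (m + 1)) (Fin (m + 1)) ℤ}
    (hG : ∀ i j : Fin (m + 1), G i.rev j.rev = Tm α β r i j) (a : Fin (m + 1) → ℕ) :
    qPoch G a = PW (RatFunc.X ^ α) (RatFunc.X ^ β) a := by
  rw [qPoch, ← Equiv.prod_comp Fin.revPerm, Fin.prod_univ_succ, PW]
  simp only [Fin.revPerm_apply, hG, prod_Icc_eq]
  simp [Tm, Ad]

lemma typeBC (n : ℕ) (hn : 2 ≤ n) (G : Matrix (Fin n) (Fin n) ℤ)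
    (hG : G = CartanMatrix.B n * Matrix.diagonal (fun i => if i.val + 1 = n then 1 else 2) ∨
      G = CartanMatrix.C n * Matrix.diagonal (fun i => if i.val + 1 = n then 2 else 1))
    (J : (Fin n → ℕ) → RatFunc ℚ) (hJ : IsJ G J) (a : Fin n → ℕ) :
    ∃ p : ℕ[X], algebraMap ℚ[X] (RatFunc ℚ) (p.map (Nat.castRingHom ℚ)) = qPoch G a ^ 2 * J a := by
  obtain ⟨m, rfl⟩ : ∃ m, n = m + 1 := ⟨n - 1, by omega⟩
  let φ : ℕ[X] →+* RatFunc ℚ :=
    (algebraMap ℚ[X] (RatFunc ℚ)).comp (Polynomial.mapRingHom (Nat.castRingHom ℚ))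
  have hX : (RatFunc.X : RatFunc ℚ) ∈ φ.rangeS := ⟨X, by simp [φ]⟩
  have g1 : Good ((RatFunc.X : RatFunc ℚ) ^ 1) := by rw [pow_one]; exact good_X
  have g2 := good_sq good_X
  obtain ⟨h0, hJ⟩ := hJ
  rcases hG with hG | hG
  · have hT : ∀ i j : Fin (m + 1), G i.rev j.rev = Tm (1 : ℕ) (2 : ℕ) 1 i j := by
      intro i j
      have hi := i.2
      have hj := j.2
      rw [hG, Matrix.mul_diagonal]
      simp only [CartanMatrix.B, Matrix.of_apply, Tm, Ad, Fin.ext_iff, Fin.val_rev]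
      split_ifs <;> omega
    simp only [qPoch_eq hT] at hJ ⊢
    exact core φ.rangeS hX good_X one_pos (by norm_num) (by norm_num) (zpow_natCast _ _).symm
      (zpow_natCast _ _).symm g1 g2 (pow_mem hX _) (pow_mem hX _)
      (by rw [pow_one]; exact step_B good_X) G hT J h0 hJ a
  · have hT : ∀ i j : Fin (m + 1), G i.rev j.rev = Tm (2 : ℕ) (1 : ℕ) 2 i j := by
      intro i j
      have hi := i.2
      have hj := j.2
      rw [hG, Matrix.mul_diagonal]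
      simp only [CartanMatrix.C, Matrix.of_apply, Tm, Ad, Fin.ext_iff, Fin.val_rev]
      split_ifs <;> omega
    simp only [qPoch_eq hT] at hJ ⊢
    exact core φ.rangeS hX good_X two_pos (by norm_num) (by norm_num) (zpow_natCast _ _).symm
      (zpow_natCast _ _).symm g2 g1 (pow_mem hX _) (pow_mem hX _)
      (by rw [pow_one]; exact step_C good_X) G hT J h0 hJ a

lemma ev_inj : Function.Injective (ev (RatFunc.X : RatFunc ℚ)) := by
  have : ev (RatFunc.X : RatFunc ℚ) =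
      (algebraMap ℚ[X] (RatFunc ℚ)).comp (mapRingHom (Int.castRingHom ℚ)) :=
    Polynomial.ringHom_ext' (Subsingleton.elim _ _) (by simp)
  rw [this, RingHom.coe_comp]
  exact (RatFunc.algebraMap_injective ℚ).comp (map_injective _ Int.cast_injective)

lemma good_pow {d : ℕ} (hd : 0 < d) : Good ((RatFunc.X : RatFunc ℚ) ^ d) := by
  refine ⟨pow_ne_zero _ RatFunc.X_ne_zero, fun k => ?_⟩
  obtain ⟨m, hm⟩ : ∃ m, d * (k + 1) = m + 1 :=
    ⟨d * (k + 1) - 1, by have : 0 < d * (k + 1) := Nat.mul_pos hd (Nat.succ_pos k); omega⟩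
  rw [← pow_mul, hm]
  exact good_X.2 m

lemma qPoch_PK (G : Matrix (Fin n) (Fin n) ℤ) (a : Fin n → ℕ) :
    qPoch G a = PK RatFunc.X (fun i => (G i i / 2).toNat) a := by
  simp only [qPoch, PK, prod_Icc_eq]

noncomputable def ph : ℕ[X] →+* RatFunc ℚ :=
  (algebraMap ℚ[X] (RatFunc ℚ)).comp (Polynomial.mapRingHom (Nat.castRingHom ℚ))

lemma ph_X : ph X = RatFunc.X := by simp [ph]

def eG : Fin 1 ⊕ Fin 1 ≃ Fin 2 where
  toFun := Sum.elim ![0] ![1]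
  invFun := ![.inl 0, .inr 0]
  left_inv := by decide
  right_inv := by decide

def eH : Fin 2 ⊕ Fin 2 ≃ Fin 4 where
  toFun := Sum.elim ![0, 2] ![1, 3]
  invFun := ![.inl 0, .inr 0, .inl 1, .inr 1]
  left_inv := by decide
  right_inv := by decide

lemma typeG (G : Matrix (Fin 2) (Fin 2) ℤ) (hG : G = !![6, -3; -3, 2])
    (J : (Fin 2 → ℕ) → RatFunc ℚ) (hJ : IsJ G J) (a : Fin 2 → ℕ) :
    ∃ p : ℕ[X], ph p = qPoch G a ^ 2 * J a := by
  obtain ⟨h0, hJ⟩ := hJ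
  simp only [qPoch_PK] at hJ ⊢
  have hD : ∀ i, 0 < (G i i / 2).toNat := by rw [hG]; decide
  have e1 : ∀ i, (G (eG (.inl i)) (eG (.inl i)) / 2).toNat = dG i := by rw [hG]; decide
  have e2 : ∀ i, (G (eG (.inr i)) (eG (.inr i)) / 2).toNat = fG i := by rw [hG]; decide
  have hq : ∀ c : Fin 2 → ℕ, ∑ i, ∑ j, (c i : ℤ) * G i j * (c j : ℤ) =
      2 * (3 * (c 0 : ℤ) ^ 2 + (c 1 : ℤ) ^ 2 - 3 * c 0 * c 1) := by
    intro c; simp [hG, Fin.sum_univ_succ]; ring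
  have h4 : ∀ c : Fin 2 → ℕ, (halfNorm G c : ℤ) =
      3 * (c 0 : ℤ) ^ 2 + (c 1 : ℤ) ^ 2 - 3 * c 0 * c 1 := by
    intro c
    rw [halfNorm, hq, Int.mul_ediv_cancel_left _ two_ne_zero, Int.toNat_of_nonneg]
    nlinarith [sq_nonneg (2 * (c 1 : ℤ) - 3 * c 0), sq_nonneg (c 0 : ℤ)]
  obtain ⟨F, F0, hF, hS⟩ := realG good_X ph.rangeS ⟨X, ph_X⟩
    (fun j => good_pow (by revert j; decide)) (fun j => good_pow (by revert j; decide))
  refine exc_core good_X ev_inj ph ph_X eG _ hD (fun i => good_pow (hD i)) lG (halfNorm G) ?_ ?_ F F0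
    (by simpa only [e1, e2] using hF) hS J h0 hJ a
  · intro c hc
    by_contra h
    have h5 := h4 c
    rw [show halfNorm G c = 0 by omega] at h5
    push_cast at h5
    have z0 : (c 0 : ℤ) = 0 := pow_eq_zero_iff two_ne_zero |>.mp (by
      linarith [sq_nonneg (2 * (c 1 : ℤ) - 3 * c 0), sq_nonneg (c 0 : ℤ),
        show (2 * (c 1 : ℤ) - 3 * c 0) ^ 2 = 4 * (c 1 : ℤ) ^ 2 - 12 * c 0 * c 1 + 9 * (c 0 : ℤ) ^ 2
          by ring])
    have z1 : (c 1 : ℤ) = 0 := pow_eq_zero_iff two_ne_zero |>.mp (by rw [z0] at h5; linarith)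
    apply hc
    funext i
    fin_cases i
    · exact_mod_cast z0
    · exact_mod_cast z1
  · intro c
    simp only [h4, e1, e2]
    simp [eG, dG, fG, lG]
    ring

lemma typeF (G : Matrix (Fin 4) (Fin 4) ℤ)
    (hG : G = !![4, -2, 0, 0; -2, 4, -2, 0; 0, -2, 2, -1; 0, 0, -1, 2])
    (J : (Fin 4 → ℕ) → RatFunc ℚ) (hJ : IsJ G J) (a : Fin 4 → ℕ) :
    ∃ p : ℕ[X], ph p = qPoch G a ^ 2 * J a := by
  obtain ⟨h0, hJ⟩ := hJ
  simp only [qPoch_PK] at hJ ⊢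
  have hD : ∀ i, 0 < (G i i / 2).toNat := by rw [hG]; decide
  have e1 : ∀ i, (G (eH (.inl i)) (eH (.inl i)) / 2).toNat = FS.TodaBC.dH i := by rw [hG]; decide
  have e2 : ∀ i, (G (eH (.inr i)) (eH (.inr i)) / 2).toNat = fH i := by rw [hG]; decide
  have hq : ∀ c : Fin 4 → ℕ, ∑ i, ∑ j, (c i : ℤ) * G i j * (c j : ℤ) =
      2 * (2 * (c 0 : ℤ) ^ 2 + 2 * (c 1 : ℤ) ^ 2 + (c 2 : ℤ) ^ 2 + (c 3 : ℤ) ^ 2 -
        2 * c 0 * c 1 - 2 * c 1 * c 2 - c 2 * c 3) := by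
    intro c; simp [hG, Fin.sum_univ_four]; ring
  have sq : ∀ x y z w : ℤ, 12 * (2 * x ^ 2 + 2 * y ^ 2 + z ^ 2 + w ^ 2 - 2 * x * y - 2 * y * z - z * w) =
      3 * (2 * w - z) ^ 2 + 6 * (2 * x - y) ^ 2 + (3 * z - 4 * y) ^ 2 + 2 * y ^ 2 := by
    intro x y z w; ring
  have h4 : ∀ c : Fin 4 → ℕ, (halfNorm G c : ℤ) =
      2 * (c 0 : ℤ) ^ 2 + 2 * (c 1 : ℤ) ^ 2 + (c 2 : ℤ) ^ 2 + (c 3 : ℤ) ^ 2 -
        2 * c 0 * c 1 - 2 * c 1 * c 2 - c 2 * c 3 := by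
    intro c
    rw [halfNorm, hq, Int.mul_ediv_cancel_left _ two_ne_zero, Int.toNat_of_nonneg]
    have := sq (c 0) (c 1) (c 2) (c 3)
    have h1 : 0 ≤ 3 * (2 * (c 3 : ℤ) - c 2) ^ 2 + 6 * (2 * (c 0 : ℤ) - c 1) ^ 2 +
      (3 * (c 2 : ℤ) - 4 * c 1) ^ 2 + 2 * (c 1 : ℤ) ^ 2 := by positivity
    linarith
  obtain ⟨F, F0, hF, hS⟩ := realH good_X ph.rangeS ⟨X, ph_X⟩
    (fun j => good_pow (by revert j; decide)) (fun j => good_pow (by revert j; decide))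
  refine exc_core good_X ev_inj ph ph_X eH _ hD (fun i => good_pow (hD i)) lH (halfNorm G) ?_ ?_ F F0
    (by simpa only [e1, e2] using hF) hS J h0 hJ a
  · intro c hc
    by_contra h
    have h5 := h4 c
    rw [show halfNorm G c = 0 by omega] at h5
    have h6 := sq (c 0) (c 1) (c 2) (c 3)
    rw [← h5] at h6
    have s1 := sq_nonneg (2 * (c 3 : ℤ) - c 2)
    have s2 := sq_nonneg (2 * (c 0 : ℤ) - c 1)
    have s3 := sq_nonneg (3 * (c 2 : ℤ) - 4 * c 1)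
    have s4 := sq_nonneg (c 1 : ℤ)
    push_cast at h6
    have z1 := pow_eq_zero_iff two_ne_zero |>.mp (show (2 * (c 3 : ℤ) - c 2) ^ 2 = 0 by linarith)
    have z2 := pow_eq_zero_iff two_ne_zero |>.mp (show (2 * (c 0 : ℤ) - c 1) ^ 2 = 0 by linarith)
    have z3 := pow_eq_zero_iff two_ne_zero |>.mp (show (3 * (c 2 : ℤ) - 4 * c 1) ^ 2 = 0 by linarith)
    have z4 := pow_eq_zero_iff two_ne_zero |>.mp (show (c 1 : ℤ) ^ 2 = 0 by linarith)
    apply hc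
    funext i
    fin_cases i
    · show c 0 = 0; omega
    · show c 1 = 0; omega
    · show c 2 = 0; omega
    · show c 3 = 0; omega
  · intro c
    simp only [h4, e1, e2]
    simp [eH, FS.TodaBC.dH, fH, lH, Fin.sum_univ_two]
    ring

/-- Types `B_n`, `C_n`, `F₄`, `G₂`: every numerator `(q)_α² 𝔍_α` is a polynomial with natural
number coefficients. -/
theorem result (n : ℕ) (G : Matrix (Fin n) (Fin n) ℤ) (hG : IsMixedGram n G)
    (J : (Fin n → ℕ) → RatFunc ℚ) (hJ : IsJ G J) (a : Fin n → ℕ) :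
    ∃ p : ℕ[X], algebraMap ℚ[X] (RatFunc ℚ) (p.map (Nat.castRingHom ℚ)) = qPoch G a ^ 2 * J a := by
  rcases hG with ⟨hn, hG⟩ | ⟨hn, hG⟩ | ⟨rfl, hG⟩ | ⟨rfl, hG⟩
  · exact typeBC n hn G (.inl hG) J hJ a
  · exact typeBC n hn G (.inr hG) J hJ a
  · exact typeF G (by rw [hG]; decide) J hJ a
  · exact typeG G (by rw [hG]; decide) J hJ a

end Pool.Agent.Variants.MP_4223bd_al.NotSimplyLaced
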