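import Pool.Agent.FS.TodaB2.Sum

set_option autoImplicit false

open Polynomial

namespace Pool.Agent.Variants.MP_4223bd_al.TypeB2

/-- The Gaussian binomial coefficient `[n, k]_q` as a polynomial with natural number
coefficients, given by the Pascal rule; it is `0` for `k > n`. -/
noncomputable def gauss : ℕ → ℕ → ℕ[X]
  | _, 0 => 1
  | 0, _ + 1 => 0
  | n + 1, k + 1 => gauss n k + X ^ (k + 1) * gauss n (k + 1)

/-- `(q)_α` for `α = a α₁ + b α₂`, with `α₁` short (`d₁ = 1`) and `α₂` long (`d₂ = 2`). -/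
noncomputable def qPoch (a b : ℕ) : RatFunc ℚ :=
  (∏ j ∈ Finset.Icc 1 a, (1 - RatFunc.X ^ j)) * ∏ j ∈ Finset.Icc 1 b, (1 - RatFunc.X ^ (2 * j))

open Pool.Agent.FS.TodaB2

lemma pas {K : Type*} [Field K] (φ : ℕ[X] →+* K) : Pas (φ X) fun n k => φ (gauss n k) where
  right n := by cases n <;> exact map_one φ
  left _ := map_zero φ
  step n k := by
    have h : gauss (n + 1) (k + 1) = gauss n k + X ^ (k + 1) * gauss n (k + 1) := rfl
    rw [h, map_add, map_mul, map_pow]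

lemma qPoch_eq (a b : ℕ) : qPoch a b = pq RatFunc.X a * pq (RatFunc.X ^ 2) b := by
  simp only [qPoch, pq, ← Finset.Ico_add_one_right_eq_Icc, Finset.prod_Ico_eq_prod_range,
    Nat.add_sub_cancel, add_comm 1, pow_mul]

lemma ne_of_eval (p : ℚ[X]) (h : p.eval 2 ≠ 0) : algebraMap ℚ[X] (RatFunc ℚ) p ≠ 0 := by
  intro e
  rw [(RatFunc.algebraMap_injective ℚ) (e.trans (map_zero _).symm), eval_zero] at h
  exact h rfl

lemma one_sub_ne (n : ℕ) : (1 : RatFunc ℚ) - RatFunc.X ^ (n + 1) ≠ 0 := by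
  have h := ne_of_eval (1 - X ^ (n + 1)) (by
    have : (1 : ℚ) < 2 ^ (n + 1) := one_lt_pow₀ (by norm_num) (Nat.succ_ne_zero n)
    simp only [eval_sub, eval_one, eval_pow, eval_X]
    linarith)
  simpa using h

lemma wt_eq (x y : ℕ) : wt (RatFunc.X : RatFunc ℚ) x y = RatFunc.X ^ (x ^ 2 + 2 * y ^ 2 - 2 * x * y) := by
  have h : 2 * x * y ≤ x ^ 2 + 2 * y ^ 2 := by nlinarith [sq_nonneg ((x : ℤ) - y)]
  rw [wt, pow_sub₀ _ RatFunc.X_ne_zero h, inv_pow]

/-- Type `B₂ = C₂`: the numerator `(q)_α² 𝔍_α` of `α = a α₁ + b α₂` is the polynomial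
`∑_k q^(k²) [a, k]_q² [a + b - k, a]_(q²)`, which has natural number coefficients. -/
theorem result (J : ℕ → ℕ → RatFunc ℚ) (h0 : J 0 0 = 1)
    (hJ : ∀ a b, J a b = ∑ x ∈ Finset.range (a + 1), ∑ y ∈ Finset.range (b + 1),
      RatFunc.X ^ (x ^ 2 + 2 * y ^ 2 - 2 * x * y) / qPoch (a - x) (b - y) * J x y) (a b : ℕ) :
    qPoch a b ^ 2 * J a b = algebraMap ℚ[X] (RatFunc ℚ) (Polynomial.map (Nat.castRingHom ℚ)
      (∑ k ∈ Finset.range (a + 1),
        X ^ (k ^ 2) * gauss a k ^ 2 * Polynomial.expand ℕ 2 (gauss (a + b - k) a))) := by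
  let φ : ℕ[X] →+* RatFunc ℚ :=
    (algebraMap ℚ[X] (RatFunc ℚ)).comp (Polynomial.mapRingHom (Nat.castRingHom ℚ))
  have e1 : φ X = RatFunc.X := by simp [φ]
  have e2 : (φ.comp (Polynomial.expand ℕ 2).toRingHom) X = RatFunc.X ^ 2 := by simp [φ]
  have hg := pas φ
  have hg' := pas (φ.comp (Polynomial.expand ℕ 2).toRingHom)
  rw [e1] at hg
  rw [e2] at hg'
  have hX : (RatFunc.X : RatFunc ℚ) ≠ 0 := RatFunc.X_ne_zero
  have h := formula hX one_sub_ne ?_ ?_ hg hg' J h0 ?_ a b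
  · rw [qPoch_eq, h, FS.TodaB2.CC]
    show _ = φ _
    rw [map_sum]
    refine Finset.sum_congr rfl fun k _ => ?_
    rw [map_mul, map_mul, map_pow, map_pow, e1]
    rfl
  · intro a b hab e
    have hA := pow_ne_zero a hX
    have hB := pow_ne_zero b (pow_ne_zero 2 hX)
    refine ne_of_eval ((X ^ 2) ^ b * (X ^ a - 1) ^ 2 + (X ^ a - (X ^ 2) ^ b) ^ 2) ?_ ?_
    · simp only [eval_add, eval_mul, eval_sub, eval_one, eval_pow, eval_X]
      have p1 : (0 : ℚ) < (2 ^ 2) ^ b := by positivity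
      rcases Nat.eq_zero_or_pos a with rfl | ha
      · have : (1 : ℚ) < (2 ^ 2) ^ b := one_lt_pow₀ (by norm_num) (by omega)
        have : (0 : ℚ) < (2 ^ 0 - (2 ^ 2) ^ b) ^ 2 := by
          rw [pow_zero]; exact pow_pos (by linarith : (0 : ℚ) < (2 ^ 2) ^ b - 1) 2 |>.trans_eq (by ring)
        positivity
      · have : (0 : ℚ) < 2 ^ a - 1 := sub_pos.2 (one_lt_pow₀ (by norm_num) ha.ne')
        positivity
    · simp only [map_add, map_mul, map_sub, map_pow, map_one, RatFunc.algebraMap_X]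
      generalize (RatFunc.X : RatFunc ℚ) ^ a = A at hA e ⊢
      generalize ((RatFunc.X : RatFunc ℚ) ^ 2) ^ b = B at hB e ⊢
      have : B * (A - 1) ^ 2 + (A - B) ^ 2 = A * B * (A + B * A⁻¹ + A * B⁻¹ + A⁻¹ - 4) := by
        field_simp
        ring
      rw [this, e, mul_zero]
  · intro a b hab e
    rw [wt_eq] at e
    have hp : 2 * a * b < a ^ 2 + 2 * b ^ 2 := by
      rcases Nat.eq_zero_or_pos b with rfl | hb
      · have : 0 < a := by omega
        simpa using pow_pos this 2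
      · nlinarith [sq_nonneg ((a : ℤ) - b)]
    obtain ⟨n, hn⟩ : ∃ n, a ^ 2 + 2 * b ^ 2 - 2 * a * b = n + 1 :=
      ⟨a ^ 2 + 2 * b ^ 2 - 2 * a * b - 1, by omega⟩
    exact one_sub_ne n (by rw [← hn, e, sub_self])
  · intro a b
    rw [hJ a b, EE, cv]
    refine Finset.sum_congr rfl fun x _ => ?_
    rw [cv, Finset.mul_sum]
    refine Finset.sum_congr rfl fun y _ => ?_
    rw [wt_eq, qPoch_eq, div_eq_mul_inv, mul_inv]
    ring

end Pool.Agent.Variants.MP_4223bd_al.TypeB2
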