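import Pool.Agent.FS.TodaBC.Form

set_option autoImplicit false

open Polynomial

namespace Pool.Agent.Variants.MP_4223bd_al.TypesBC

variable {n : ℕ}

/-- For `a` in the positive cone (given by its coefficients on the simple roots),
the number (a,a)/2. -/
def halfNorm (G : Matrix (Fin n) (Fin n) ℤ) (a : Fin n → ℕ) : ℕ :=
  ((∑ i, ∑ j, (a i : ℤ) * G i j * (a j : ℤ)) / 2).toNat

/-- (q)_a = ∏_i ∏_{j=1}^{a_i} (1 - q^{d_i j}) with d_i = (α_i,α_i)/2. -/
noncomputable def qPoch (G : Matrix (Fin n) (Fin n) ℤ) (a : Fin n → ℕ) : RatFunc ℚ :=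
  ∏ i, ∏ j ∈ Finset.Icc 1 (a i), (1 - RatFunc.X ^ ((G i i / 2).toNat * j))

/-- `J` is the family of rational functions of the problem: `J 0 = 1` and
`J a = ∑_{0 ≤ c ≤ a} q^{(c,c)/2} / (q)_{a-c} * J c`. -/
def IsJ (G : Matrix (Fin n) (Fin n) ℤ) (J : (Fin n → ℕ) → RatFunc ℚ) : Prop :=
  J 0 = 1 ∧
    ∀ a, J a = ∑ c ∈ Finset.Iic a, RatFunc.X ^ halfNorm G c / qPoch G (a - c) * J c

open Pool.Agent.Lib.MP_4223bd_al Pool.Agent.FS.TodaBC

lemma good_X : Good (RatFunc.X : RatFunc ℚ) := by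
  refine ⟨RatFunc.X_ne_zero, fun k h => ?_⟩
  have h1 : (algebraMap ℚ[X] (RatFunc ℚ)) (1 - X ^ (k + 1)) = 0 := by
    simpa using h
  have h2 : (1 - X ^ (k + 1) : ℚ[X]) = 0 := (RatFunc.algebraMap_injective ℚ) (by simpa using h1)
  have h3 := congrArg (fun p : ℚ[X] => p.coeff 0) h2
  simp at h3

lemma prod_Icc_eq (d x : ℕ) :
    ∏ j ∈ Finset.Icc 1 x, (1 - (RatFunc.X : RatFunc ℚ) ^ (d * j)) = pq (RatFunc.X ^ d) x := by
  rw [pq, ← Finset.Ico_add_one_right_eq_Icc, Finset.prod_Ico_eq_prod_range]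
  simp [add_comm, pow_mul]

lemma qPoch_eq {m α β : ℕ} {r : ℤ} {G : Matrix (Fin (m + 1)) (Fin (m + 1)) ℤ}
    (hG : ∀ i j : Fin (m + 1), G i.rev j.rev = Tm α β r i j) (a : Fin (m + 1) → ℕ) :
    qPoch G a = PW (RatFunc.X ^ α) (RatFunc.X ^ β) a := by
  rw [qPoch, ← Equiv.prod_comp Fin.revPerm, Fin.prod_univ_succ, PW]
  simp only [Fin.revPerm_apply, hG, prod_Icc_eq]
  simp [Tm, Ad]

/-- Types `B_n` and `C_n`: every numerator `(q)_α² 𝔍_α` is a polynomial with natural number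
coefficients. The matrix `G` is the Gram matrix of the simple roots, short roots having square
length 2. -/
theorem result (n : ℕ) (hn : 2 ≤ n) (G : Matrix (Fin n) (Fin n) ℤ)
    (hG : G = CartanMatrix.B n * Matrix.diagonal (fun i => if i.val + 1 = n then 1 else 2) ∨
      G = CartanMatrix.C n * Matrix.diagonal (fun i => if i.val + 1 = n then 2 else 1))
    (J : (Fin n → ℕ) → RatFunc ℚ) (hJ : IsJ G J) (a : Fin n → ℕ) :
    ∃ p : ℕ[X], algebraMap ℚ[X] (RatFunc ℚ) (p.map (Nat.castRingHom ℚ)) = qPoch G a ^ 2 * J a := by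
  obtain ⟨m, rfl⟩ : ∃ m, n = m + 1 := ⟨n - 1, by omega⟩
  let φ : ℕ[X] →+* RatFunc ℚ :=
    (algebraMap ℚ[X] (RatFunc ℚ)).comp (Polynomial.mapRingHom (Nat.castRingHom ℚ))
  have hX : (RatFunc.X : RatFunc ℚ) ∈ φ.rangeS := ⟨X, by simp [φ]⟩
  have g1 : Good ((RatFunc.X : RatFunc ℚ) ^ 1) := by rw [pow_one]; exact good_X
  have g2 := good_sq good_X
  obtain ⟨h0, hJ⟩ := hJ
  rcases hG with hG | hG
  · have hT : ∀ i j : Fin (m + 1), G i.rev j.rev = Tm (1 : ℕ) (2 : ℕ) 1 i j := by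
      intro i j
      have hi := i.2
      have hj := j.2
      rw [hG, Matrix.mul_diagonal]
      simp only [CartanMatrix.B, Matrix.of_apply, Tm, Ad, Fin.ext_iff, Fin.val_rev]
      split_ifs <;> omega
    simp only [qPoch_eq hT] at hJ ⊢
    exact core φ.rangeS hX good_X one_pos (by norm_num) (by norm_num) (zpow_natCast _ _).symm
      (zpow_natCast _ _).symm g1 g2 (pow_mem hX _) (pow_mem hX _)
      (by rw [pow_one]; exact step_B good_X) G hT J h0 hJ a
  · have hT : ∀ i j : Fin (m + 1), G i.rev j.rev = Tm (2 : ℕ) (1 : ℕ) 2 i j := by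
      intro i j
      have hi := i.2
      have hj := j.2
      rw [hG, Matrix.mul_diagonal]
      simp only [CartanMatrix.C, Matrix.of_apply, Tm, Ad, Fin.ext_iff, Fin.val_rev]
      split_ifs <;> omega
    simp only [qPoch_eq hT] at hJ ⊢
    exact core φ.rangeS hX good_X two_pos (by norm_num) (by norm_num) (zpow_natCast _ _).symm
      (zpow_natCast _ _).symm g2 g1 (pow_mem hX _) (pow_mem hX _)
      (by rw [pow_one]; exact step_C good_X) G hT J h0 hJ a

end Pool.Agent.Variants.MP_4223bd_al.TypesBC
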